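import Mathlib
import Pool.Agent.U831.AF.CurveDist

/-!
# `log α` and `α ^ β`: at every scale one curve carries all exceptional polynomials

The question is whether `log α` and `α ^ β` are algebraically independent for algebraic `α` and irrational
algebraic `β`. Let `α` be a positive rational number, not `1`, and let `β` be any real number of absolute
value at most `B`. For every large `S` there is ONE polynomial `F(x, y)` with rational coefficients, zero
or irreducible and not constant in `y`, such that on the whole range of scales `N` between `S` and `S ^ M`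
every integer polynomial `P` of degree at most `D` in each variable and of height at most `N ^ κ` has one
of the following two properties: the multiples of `P(log α, α ^ β)` modulo one are equidistributed at the
scale `N` with a power saving, or there is a fraction `p / q` with a small denominator very close to
`P(log α, α ^ β)` such that `F` divides `q P - p`. The constants depend only on `α`, `D`, `M` and `B`; they
are the same for all exponents `β`, algebraic or not.

So at each scale there is at most one algebraic curve through (or extremely near to) the point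
`(log α, α ^ β)`, and it is not a line `x = c`. If the two numbers are algebraically dependent, then it is
the curve of their relation.

The proof. Bad distribution gives small relations. Along a sequence of scales and an ultrafilter, the
sequences of polynomial growth modulo those smaller than all powers form a field. The class of `log α` is
transcendental over the ring `D` of the classes of integer sequences by the transcendence measure of
`log α`, so the polynomials over `D` which vanish at the classes of `log α` and `α ^ β` are, up to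
denominators in `D[x]`, the multiples of one polynomial (a minimal polynomial over the fraction field of
`D[x]`), or all zero. The divisibility is lifted back to the scales, where the denominators in `ℚ[x]` are
removed with an irreducible factor which is not constant in `y`.
-/

set_option autoImplicit false

namespace Pool.Agent.Results.MP_655169_nt.OneCurveForLogAndPower

open Polynomial

/-- the number of `m < N` with the fractional part of `m θ + γ` in `[u, v)` -/
noncomputable def count (θ γ u v : ℝ) (N : ℕ) : ℕ :=
  ((Finset.range N).filter fun m : ℕ => u ≤ Int.fract (m * θ + γ) ∧ Int.fract (m * θ + γ) < v).card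

/-- the sequence `m θ + γ`, `m < N`, is equidistributed with an error at most `N ^ (1 - κ)` -/
def Good (κ : ℝ) (N : ℕ) (θ : ℝ) : Prop :=
  ∀ γ u v : ℝ, 0 ≤ u → u ≤ v → v ≤ 1 → |(count θ γ u v N : ℝ) - (v - u) * N| ≤ (N : ℝ) ^ (1 - κ)

/-- the value `P(x, y)` of the polynomial with coefficients `a` -/
noncomputable def value {D : ℕ} (a : Fin (D + 1) → Fin (D + 1) → ℤ) (x y : ℝ) : ℝ :=
  ∑ i, ∑ j, (a i j : ℝ) * (x ^ (i : ℕ) * y ^ (j : ℕ))

/-- the polynomial `P(x, y)` with coefficients `a`, as a polynomial in `y` over `ℚ[x]` -/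
noncomputable def poly {D : ℕ} (a : Fin (D + 1) → Fin (D + 1) → ℤ) : ℚ[X][X] :=
  ∑ i, ∑ j, C (C (a i j : ℚ) * X ^ (i : ℕ)) * X ^ (j : ℕ)

theorem power_bound (α β B : ℝ) (hα : 0 < α) (hβ : |β| ≤ B) : |α ^ β| ≤ Real.exp (|Real.log α| * B) := by
  rw [abs_of_pos (Real.rpow_pos_of_pos hα β), Real.rpow_def_of_pos hα]
  refine Real.exp_le_exp.2 ((le_abs_self _).trans ?_)
  rw [abs_mul]
  exact mul_le_mul_of_nonneg_left hβ (abs_nonneg _)

/-- **One curve at each scale.** -/
theorem result (α : ℚ) (hα : 0 < α) (hα1 : α ≠ 1) (D : ℕ) (B M : ℝ) (hM : 1 ≤ M) :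
    ∃ κ : ℝ, 0 < κ ∧ ∃ X₀ : ℝ, ∀ β : ℝ, |β| ≤ B → ∀ S : ℝ, X₀ ≤ S →
      ∃ F : ℚ[X][X], (F = 0 ∨ (Irreducible F ∧ 1 ≤ F.natDegree)) ∧
        ∀ N : ℕ, S ≤ N → (N : ℝ) ≤ S ^ M → ∀ a : Fin (D + 1) → Fin (D + 1) → ℤ,
          (∀ i j, |(a i j : ℝ)| ≤ (N : ℝ) ^ κ) →
            Good κ N (value a (Real.log α) ((α : ℝ) ^ β)) ∨
            ∃ (q : ℕ) (p : ℤ), 1 ≤ q ∧ (q : ℝ) ≤ 20 * (N : ℝ) ^ κ ∧
              |(q : ℝ) * value a (Real.log α) ((α : ℝ) ^ β) - p| ≤ 20 * (N : ℝ) ^ (κ - 1) ∧
              F ∣ C (C (q : ℚ)) * poly a - C (C (p : ℚ)) := by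
  have hαR : (0 : ℝ) < (α : ℝ) := by exact_mod_cast hα
  obtain ⟨κ, hκ, -, X₀, hX₀, h⟩ := Pool.Agent.U831.AF.curve (Real.log α)
    (Pool.Agent.TH456.TM.measT_real_log α hα hα1) D (Real.exp (|Real.log α| * B)) M hM
  refine ⟨κ, hκ, X₀, fun β hβ S hS => ?_⟩
  obtain ⟨F, hF, h1⟩ := h ((α : ℝ) ^ β) (power_bound α β B hαR hβ) S hS
  refine ⟨F, hF, fun N hSN hNS a ha => ?_⟩
  have hN : 0 < (N : ℝ) := by linarith
  have hval : Pool.Agent.U831.AF.form (Pool.Agent.U831.AF.mon2 D (Real.log α) ((α : ℝ) ^ β))
      (fun ij => a ij.1 ij.2) = value a (Real.log α) ((α : ℝ) ^ β) := by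
    unfold Pool.Agent.U831.AF.form value
    rw [Fintype.sum_prod_type]
    rfl
  have hpoly : Pool.Agent.U831.AF.polyV (fun ij : Fin (D + 1) × Fin (D + 1) => a ij.1 ij.2) = poly a := by
    unfold Pool.Agent.U831.AF.polyV poly
    rw [Fintype.sum_prod_type]
  have h2 := h1 N hSN hNS (fun ij => a ij.1 ij.2) (fun ij => ha ij.1 ij.2)
  rw [hval, hpoly] at h2
  rcases h2 with h2 | h2
  · left
    intro γ u v hu huv hv
    have h3 := h2 γ u v hu huv hv
    have h4 : (N : ℝ) ^ (-κ) * N = (N : ℝ) ^ (1 - κ) := by
      rw [sub_eq_add_neg, add_comm, Real.rpow_add hN, Real.rpow_one]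
    rw [h4] at h3
    exact h3
  · exact Or.inr h2

end Pool.Agent.Results.MP_655169_nt.OneCurveForLogAndPower
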